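import Pool.Agent.RS.StmtsT

set_option autoImplicit false

namespace Pool.Agent.RS.H90

open MvPolynomial

/-- the germ map of `io E` -/
noncomputable def gmap (E : Type) [Field E] : AS E →+* Filter.Germ (uf : Filter ℕ) (FF E) where
  toFun := Filter.Germ.map (io E)
  map_one' := congrArg (fun f : ℕ → FF E => (f : Filter.Germ (uf : Filter ℕ) (FF E)))
    (funext fun _ => map_one (io E))
  map_zero' := congrArg (fun f : ℕ → FF E => (f : Filter.Germ (uf : Filter ℕ) (FF E)))
    (funext fun _ => map_zero (io E))
  map_mul' := by
    intro a b
    induction a using Filter.Germ.inductionOn with | _ a => ?_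
    induction b using Filter.Germ.inductionOn with | _ b => ?_
    exact congrArg (fun f : ℕ → FF E => (f : Filter.Germ (uf : Filter ℕ) (FF E)))
      (funext fun n => map_mul (io E) (a n) (b n))
  map_add' := by
    intro a b
    induction a using Filter.Germ.inductionOn with | _ a => ?_
    induction b using Filter.Germ.inductionOn with | _ b => ?_
    exact congrArg (fun f : ℕ → FF E => (f : Filter.Germ (uf : Filter ℕ) (FF E)))
      (funext fun n => map_add (io E) (a n) (b n))

theorem gmap_gm (E : Type) [Field E] (F : ℕ → MvPolynomial ℕ E) :
    gmap E (gm E F) = ((fun n => io E (F n)) : Filter.Germ (uf : Filter ℕ) (FF E)) := rfl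

theorem gmap_injective (E : Type) [Field E] : Function.Injective (gmap E) := by
  intro a b hab
  induction a using Filter.Germ.inductionOn with | _ a => ?_
  induction b using Filter.Germ.inductionOn with | _ b => ?_
  have h1 := Filter.Germ.coe_eq.1 hab
  refine Filter.Germ.coe_eq.2 (h1.mono fun n hn => ?_)
  exact io_injective hn

theorem gem : GemStmt := by
  intro E _
  refine ⟨(gmap E).comp (BG E).val.toRingHom, ?_, ?_⟩
  · exact (gmap_injective E).comp Subtype.val_injective
  · intro F f hf
    show gmap E (f : AS E) = _
    rw [hf, gmap_gm]

end Pool.Agent.RS.H90
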