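import Pool.Agent.RS.StmtsF

set_option autoImplicit false

namespace Pool.Agent.RS.H90

theorem smp : SmpStmt := by
  intro R S _ _ φ m B δ Q b P
  constructor
  · unfold numT sylA
    split_ifs with h
    · rw [map_sum]
      refine Finset.sum_congr rfl fun k _ => ?_
      rw [map_mul, Polynomial.coeff_map, ← Polynomial.map_pow, Polynomial.sylvester_map_map]
      congr 1
      have h1 := RingHom.map_adjugate φ (Polynomial.sylvester b (Q ^ B) m (B * δ))
      rw [← h1]
      rfl
    · rw [map_zero]
  · unfold denT
    rw [map_mul, map_pow, Polynomial.coeff_map, ← Polynomial.map_pow, Polynomial.resultant_map_map]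

end Pool.Agent.RS.H90
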